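import Mathlib.Order.SupClosed
import Mathlib.Data.Finite.Prod
import Mathlib.Data.Finite.Sum
import Mathlib.Data.Finite.Sigma
import Mathlib.Data.Fintype.Basic
import Mathlib.Data.Fintype.Prod
import Mathlib.Data.Fintype.Option
import Mathlib.Order.PropInstances
import Mathlib.Tactic.Tauto
import Mathlib.Tactic.FinCases

/-!
# MP_397c7d_co, Q2: the lattices `Reg S`, `S` a finite join-semilattice, satisfy no nontrivial
lattice identity

For every lattice identity `s = t` which fails in some lattice there is a finite join-semilattice `S`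
such that the lattice `Reg S` of the regular closed subsets of `S` fails it.

The proof uses glued sums: cells are finite join-semilattices `S` with two join-prime-like sets
`J, M` and a valuation in `Reg S`; a finite family of cells is glued on top by the four elements of
`Prop × Prop`, and this doubles an interval of the sublattice generated by the variables.
-/

set_option autoImplicit false

universe u

namespace Pool.Agent.Results.MP_397c7d_co.RegSemilatticesNoIdentity

section Defs

/-- Lattice terms in the variables `x₀, x₁, x₂, …`. -/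
inductive LTerm : Type
  | var : ℕ → LTerm
  | join : LTerm → LTerm → LTerm
  | meet : LTerm → LTerm → LTerm

/-- The value of a lattice term under an assignment of elements of `L` to the variables. -/
def LTerm.eval {L : Type u} [Lattice L] (v : ℕ → L) : LTerm → L
  | .var n => v n
  | .join a b => a.eval v ⊔ b.eval v
  | .meet a b => a.eval v ⊓ b.eval v

variable {P : Type u}

/-- The interior operator of a closure operator: `P \ φ (P \ a)`. -/
def inter (φ : ClosureOperator (Set P)) (a : Set P) : Set P := (φ aᶜ)ᶜ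

/-- The regular closed sets: `a = φ (inter a)`. -/
def Reg (φ : ClosureOperator (Set P)) : Type u := {a : Set P // a = φ (inter φ a)}

theorem inter_sub (φ : ClosureOperator (Set P)) (a : Set P) : inter φ a ⊆ a := by
  intro x hx
  by_contra h
  exact hx (φ.le_closure _ h)

theorem inter_mono (φ : ClosureOperator (Set P)) {a b : Set P} (h : a ⊆ b) :
    inter φ a ⊆ inter φ b :=
  Set.compl_subset_compl.mpr (φ.monotone (Set.compl_subset_compl.mpr h))

theorem inter_idem (φ : ClosureOperator (Set P)) (a : Set P) :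
    inter φ (inter φ a) = inter φ a := by
  unfold inter
  rw [compl_compl, φ.idempotent]

theorem reg_cl_inter (φ : ClosureOperator (Set P)) (a : Set P) :
    φ (inter φ a) = φ (inter φ (φ (inter φ a))) := by
  apply Set.Subset.antisymm
  · apply φ.monotone
    conv_lhs => rw [← inter_idem]
    exact inter_mono φ (φ.le_closure _)
  · have h := φ.monotone (inter_sub φ (φ (inter φ a)))
    rwa [φ.idempotent] at h

theorem reg_cl_union (φ : ClosureOperator (Set P)) {a b : Set P} (ha : a = φ (inter φ a))
    (hb : b = φ (inter φ b)) : φ (a ∪ b) = φ (inter φ (φ (a ∪ b))) := by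
  apply Set.Subset.antisymm
  · have h1 : a ∪ b ⊆ φ (inter φ (φ (a ∪ b))) := by
      apply Set.union_subset
      · have h2 : φ (inter φ a) ⊆ φ (inter φ (φ (a ∪ b))) :=
          φ.monotone (inter_mono φ (Set.subset_union_left.trans (φ.le_closure _)))
        rwa [← ha] at h2
      · have h2 : φ (inter φ b) ⊆ φ (inter φ (φ (a ∪ b))) :=
          φ.monotone (inter_mono φ (Set.subset_union_right.trans (φ.le_closure _)))
        rwa [← hb] at h2
    have h3 := φ.monotone h1
    rwa [φ.idempotent] at h3
  · have h := φ.monotone (inter_sub φ (φ (a ∪ b)))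
    rwa [φ.idempotent] at h

theorem reg_closed (φ : ClosureOperator (Set P)) {a : Set P} (ha : a = φ (inter φ a)) :
    φ a = a := by
  conv_lhs => rw [ha]
  rw [φ.idempotent, ← ha]

/-- The regular closed sets are ordered by inclusion. -/
instance (φ : ClosureOperator (Set P)) : PartialOrder (Reg φ) :=
  Subtype.partialOrder _

/-- The lattice of the regular closed sets, ordered by inclusion. -/
instance (φ : ClosureOperator (Set P)) : Lattice (Reg φ) where
  sup a b := ⟨φ (a.1 ∪ b.1), reg_cl_union φ a.2 b.2⟩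
  inf a b := ⟨φ (inter φ (a.1 ∩ b.1)), reg_cl_inter φ _⟩
  le_sup_left a b := show a.1 ⊆ φ (a.1 ∪ b.1) from
    Set.subset_union_left.trans (φ.le_closure _)
  le_sup_right a b := show b.1 ⊆ φ (a.1 ∪ b.1) from
    Set.subset_union_right.trans (φ.le_closure _)
  sup_le a b c hac hbc := show φ (a.1 ∪ b.1) ⊆ c.1 by
    have h := φ.monotone (Set.union_subset (show a.1 ⊆ c.1 from hac) (show b.1 ⊆ c.1 from hbc))
    rwa [reg_closed φ c.2] at h
  inf_le_left a b := show φ (inter φ (a.1 ∩ b.1)) ⊆ a.1 by
    have h := φ.monotone ((inter_sub φ (a.1 ∩ b.1)).trans Set.inter_subset_left)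
    rwa [reg_closed φ a.2] at h
  inf_le_right a b := show φ (inter φ (a.1 ∩ b.1)) ⊆ b.1 by
    have h := φ.monotone ((inter_sub φ (a.1 ∩ b.1)).trans Set.inter_subset_right)
    rwa [reg_closed φ b.2] at h
  le_inf a b c hab hac := show a.1 ⊆ φ (inter φ (b.1 ∩ c.1)) by
    have h := φ.monotone (inter_mono φ
      (Set.subset_inter (show a.1 ⊆ b.1 from hab) (show a.1 ⊆ c.1 from hac)))
    rwa [← a.2] at h

/-- `Reg S` for a join-semilattice `S`: the closure operator sends a set to the set of all joins of
its nonempty finite subsets. -/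
abbrev RegS (S : Type u) [SemilatticeSup S] : Type u :=
  Reg (supClosure : ClosureOperator (Set S))

end Defs

section Sets

variable {S : Type} [SemilatticeSup S]

/-- The values of the terms as sets. -/
def ev (v : ℕ → Set S) : LTerm → Set S
  | .var n => v n
  | .join a b => supClosure (ev v a ∪ ev v b)
  | .meet a b => supClosure (inter supClosure (ev v a ∩ ev v b))

theorem ev_eval (v : ℕ → RegS S) (t : LTerm) : (t.eval v).1 = ev (fun n => (v n).1) t := by
  induction t with
  | var n => rfl
  | join a b iha ihb =>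
    show supClosure ((a.eval v).1 ∪ (b.eval v).1) = _
    rw [iha, ihb]
    rfl
  | meet a b iha ihb =>
    show supClosure (inter supClosure ((a.eval v).1 ∩ (b.eval v).1)) = _
    rw [iha, ihb]
    rfl

theorem ev_reg {v : ℕ → Set S} (hv : ∀ n, v n = supClosure (inter supClosure (v n))) (t : LTerm) :
    ev v t = supClosure (inter supClosure (ev v t)) := by
  induction t with
  | var n => exact hv n
  | join a b iha ihb => exact reg_cl_union _ iha ihb
  | meet a b iha ihb => exact reg_cl_inter _ _

theorem ev_closed {v : ℕ → Set S} (hv : ∀ n, v n = supClosure (inter supClosure (v n)))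
    (t : LTerm) : SupClosed (ev v t) := by
  rw [ev_reg hv t]
  exact supClosed_supClosure

end Sets

/-- A cell: a finite join-semilattice with two clopen sets whose complements are closed downwards
and with a valuation of the variables by regular closed sets. -/
structure Cell where
  S : Type
  sl : SemilatticeSup S
  fin : Finite S
  J : Set S
  M : Set S
  hJ : ∀ x y : S, x ⊔ y ∈ J ↔ x ∈ J ∨ y ∈ J
  hM : ∀ x y : S, x ⊔ y ∈ M ↔ x ∈ M ∨ y ∈ M
  v : ℕ → Set S
  hv : ∀ n, v n = supClosure (inter supClosure (v n))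

attribute [instance] Cell.sl Cell.fin

/-- The value of a term in a cell. -/
abbrev Cell.val (C : Cell) (t : LTerm) : Set C.S := ev C.v t

section Glue

variable {κ : Type} (C : κ → Cell)

/-- The glued sum of a family of cells. -/
def Gl : Type := (Σ k, (C k).S) ⊕ (Prop × Prop)

/-- The homomorphism to `Prop × Prop`. -/
def gp : Gl C → Prop × Prop
  | .inl x => (x.2 ∈ (C x.1).J, x.2 ∈ (C x.1).M)
  | .inr b => b

open Classical in
/-- The join of the glued sum. -/
noncomputable def gsup : Gl C → Gl C → Gl C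
  | .inl x, .inl y => if h : x.1 = y.1 then .inl ⟨y.1, (h ▸ x.2) ⊔ y.2⟩
      else .inr (gp C (.inl x) ⊔ gp C (.inl y))
  | .inl x, .inr b => .inr (gp C (.inl x) ⊔ b)
  | .inr b, .inl y => .inr (b ⊔ gp C (.inl y))
  | .inr b, .inr c => .inr (b ⊔ c)

theorem gsup_same (k : κ) (x y : (C k).S) :
    gsup C (.inl ⟨k, x⟩) (.inl ⟨k, y⟩) = .inl ⟨k, x ⊔ y⟩ := by
  simp [gsup]

theorem gsup_ne {k l : κ} (h : k ≠ l) (x : (C k).S) (y : (C l).S) :
    gsup C (.inl ⟨k, x⟩) (.inl ⟨l, y⟩) = .inr (gp C (.inl ⟨k, x⟩) ⊔ gp C (.inl ⟨l, y⟩)) := by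
  simp [gsup, h]

theorem gp_same (k : κ) (x y : (C k).S) :
    gp C (.inl ⟨k, x ⊔ y⟩) = gp C (.inl ⟨k, x⟩) ⊔ gp C (.inl ⟨k, y⟩) := by
  apply Prod.ext
  · exact propext ((C k).hJ x y)
  · exact propext ((C k).hM x y)

theorem gp_sup (x y : Gl C) : gp C (gsup C x y) = gp C x ⊔ gp C y := by
  rcases x with ⟨k, x⟩ | b <;> rcases y with ⟨l, y⟩ | c
  · by_cases h : k = l
    · subst h
      rw [gsup_same, gp_same]
    · rw [gsup_ne C h]
      rfl
  · rfl
  · rfl
  · rfl

/-- Either both elements are in one cell, or the join is the join of the images. -/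
theorem gsup_cases (x y : Gl C) :
    (∃ (k : κ) (x' y' : (C k).S), x = .inl ⟨k, x'⟩ ∧ y = .inl ⟨k, y'⟩) ∨
      gsup C x y = .inr (gp C x ⊔ gp C y) := by
  rcases x with ⟨k, x⟩ | b <;> rcases y with ⟨l, y⟩ | c
  · by_cases h : k = l
    · subst h
      exact Or.inl ⟨k, x, y, rfl, rfl⟩
    · exact Or.inr (gsup_ne C h x y)
  · exact Or.inr rfl
  · exact Or.inr rfl
  · exact Or.inr rfl

theorem gsup_comm (x y : Gl C) : gsup C x y = gsup C y x := by
  rcases x with ⟨k, x⟩ | b <;> rcases y with ⟨l, y⟩ | c
  · by_cases h : k = l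
    · subst h
      rw [gsup_same, gsup_same, sup_comm]
    · rw [gsup_ne C h, gsup_ne C (Ne.symm h), sup_comm]
  · show Sum.inr _ = Sum.inr _
    rw [sup_comm]
  · show Sum.inr _ = Sum.inr _
    rw [sup_comm]
  · show Sum.inr _ = Sum.inr _
    rw [sup_comm]

theorem gsup_idem (x : Gl C) : gsup C x x = x := by
  rcases x with ⟨k, x⟩ | b
  · rw [gsup_same, sup_idem]
  · show Sum.inr _ = Sum.inr _
    rw [sup_idem]

theorem gsup_inr_left (b : Prop × Prop) (x : Gl C) : gsup C (.inr b) x = .inr (b ⊔ gp C x) := by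
  rcases x with ⟨k, x⟩ | c
  · rfl
  · rfl

theorem gsup_inr_right (b : Prop × Prop) (x : Gl C) : gsup C x (.inr b) = .inr (gp C x ⊔ b) := by
  rcases x with ⟨k, x⟩ | c
  · rfl
  · rfl

theorem gsup_assoc (x y z : Gl C) : gsup C (gsup C x y) z = gsup C x (gsup C y z) := by
  rcases gsup_cases C x y with ⟨k, x', y', rfl, rfl⟩ | h
  · rcases gsup_cases C (.inl ⟨k, y'⟩) z with ⟨l, y'', z', h1, rfl⟩ | h2
    · injection h1 with h1
      injection h1 with h3 h4
      subst h3
      rw [gsup_same, gsup_same, gsup_same, gsup_same, sup_assoc]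
    · rw [h2, gsup_same, gsup_inr_right]
      rcases gsup_cases C (.inl ⟨k, x' ⊔ y'⟩) z with ⟨l, y'', z', h1, rfl⟩ | h3
      · exfalso
        injection h1 with h1
        injection h1 with h3 h4
        subst h3
        rw [gsup_same] at h2
        cases h2
      · rw [h3, gp_same, sup_assoc]
  · rw [h, gsup_inr_left, sup_assoc]
    rcases gsup_cases C y z with ⟨l, y', z', rfl, rfl⟩ | h2
    · rw [gsup_same, ← gp_same]
      rcases gsup_cases C x (.inl ⟨l, y' ⊔ z'⟩) with ⟨m, x', y'', rfl, h1⟩ | h3
      · exfalso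
        injection h1 with h1
        injection h1 with h3 h4
        subst h3
        rw [gsup_same] at h
        cases h
      · rw [h3]
    · rw [h2, gsup_inr_right]

noncomputable instance : SemilatticeSup (Gl C) :=
  @SemilatticeSup.mk' (Gl C) ⟨gsup C⟩ (gsup_comm C) (gsup_assoc C) (gsup_idem C)

theorem sup_def (x y : Gl C) : x ⊔ y = gsup C x y := rfl

instance [Finite κ] : Finite (Gl C) := by
  unfold Gl
  infer_instance

end Glue

section Closure

variable {κ : Type} {C : κ → Cell}

theorem sub_cl {A : Set (Gl C)} {x : Gl C} (h : x ∈ A) : x ∈ supClosure A := subset_supClosure h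

theorem cl_inl {A : Set (Gl C)} {k : κ} {x : (C k).S}
    (hx : x ∈ supClosure {y : (C k).S | (Sum.inl ⟨k, y⟩ : Gl C) ∈ A}) :
    (Sum.inl ⟨k, x⟩ : Gl C) ∈ supClosure A := by
  have h : supClosure {y : (C k).S | (Sum.inl ⟨k, y⟩ : Gl C) ∈ A} ⊆
      {y : (C k).S | (Sum.inl ⟨k, y⟩ : Gl C) ∈ supClosure A} := by
    apply supClosure_min
    · intro y hy
      exact subset_supClosure hy
    · intro y hy z hz
      have h2 := supClosed_supClosure (s := A) hy hz
      rw [sup_def, gsup_same] at h2
      exact h2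
  exact h hx

theorem cl_inl' {A : Set (Gl C)} {k : κ} {x : (C k).S}
    (hx : (Sum.inl ⟨k, x⟩ : Gl C) ∈ supClosure A) :
    x ∈ supClosure {y : (C k).S | (Sum.inl ⟨k, y⟩ : Gl C) ∈ A} := by
  have h : supClosure A ⊆ {z : Gl C | ∀ y : (C k).S, z = Sum.inl ⟨k, y⟩ →
      y ∈ supClosure {y : (C k).S | (Sum.inl ⟨k, y⟩ : Gl C) ∈ A}} := by
    apply supClosure_min
    · intro z hz y hy
      subst hy
      exact subset_supClosure hz
    · intro z hz w hw y hy
      rw [sup_def] at hy
      rcases gsup_cases C z w with ⟨l, z', w', rfl, rfl⟩ | h2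
      · rw [gsup_same] at hy
        injection hy with hy
        injection hy with h3 h4
        subst h3
        subst h4
        exact supClosed_supClosure (hz z' rfl) (hw w' rfl)
      · rw [h2] at hy
        cases hy
  exact h hx x rfl

theorem int_inl {A : Set (Gl C)} {k : κ} {x : (C k).S} :
    (Sum.inl ⟨k, x⟩ : Gl C) ∈ inter supClosure A ↔
      x ∈ inter supClosure {y : (C k).S | (Sum.inl ⟨k, y⟩ : Gl C) ∈ A} :=
  ⟨fun h h2 => h (cl_inl h2), fun h h2 => h (cl_inl' h2)⟩

theorem mem_inr {A : Set (Gl C)} {x y : Gl C} (hx : x ∈ supClosure A) (hy : y ∈ supClosure A)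
    (h : ∀ (k : κ) (x' y' : (C k).S), x = .inl ⟨k, x'⟩ → y = .inl ⟨k, y'⟩ → False)
    (b : Prop × Prop) (hb : gp C x ⊔ gp C y = b) : (Sum.inr b : Gl C) ∈ supClosure A := by
  have h2 := supClosed_supClosure (s := A) hx hy
  rw [sup_def] at h2
  rcases gsup_cases C x y with ⟨k, x', y', h3, h4⟩ | h3
  · exact (h k x' y' h3 h4).elim
  · rw [h3, hb] at h2
    exact h2

/-- Some cell has a point of `M` in the profile. -/
def PP (Z : ∀ k, Set (C k).S) : Prop := ∃ k, ∃ x ∈ Z k, x ∈ (C k).M

/-- All the sets `J` are contained in the profile. -/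
def JJ (Z : ∀ k, Set (C k).S) : Prop := ∀ k, (C k).J ⊆ Z k

/-- The subset of the glued sum given by a profile and by a proposition. -/
def XX (Z : ∀ k, Set (C k).S) (q : Prop) : Set (Gl C) :=
  {x | match x with
    | .inl x => x.2 ∈ Z x.1
    | .inr b => b.2 → (PP Z ∨ (b.1 ∧ q))}

theorem XX_inl {Z : ∀ k, Set (C k).S} {q : Prop} {k : κ} {x : (C k).S} :
    (Sum.inl ⟨k, x⟩ : Gl C) ∈ XX Z q ↔ x ∈ Z k := Iff.rfl

theorem XX_inr {Z : ∀ k, Set (C k).S} {q : Prop} {b : Prop × Prop} :
    (Sum.inr b : Gl C) ∈ XX Z q ↔ (b.2 → (PP Z ∨ (b.1 ∧ q))) := Iff.rfl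

theorem PP_mono {Z W : ∀ k, Set (C k).S} (h : ∀ k, Z k ⊆ W k) (hP : PP Z) : PP W := by
  obtain ⟨k, x, hx, hm⟩ := hP
  exact ⟨k, x, h k hx, hm⟩

theorem XX_mono {Z W : ∀ k, Set (C k).S} {q r : Prop} (h : ∀ k, Z k ⊆ W k) (hq : q → r) :
    XX Z q ⊆ XX W r := by
  rintro (⟨k, x⟩ | b) hx
  · exact h k hx
  · intro hb
    rcases hx hb with h1 | ⟨h1, h2⟩
    · exact Or.inl (PP_mono h h1)
    · exact Or.inr ⟨h1, hq h2⟩

theorem XX_gp {Z : ∀ k, Set (C k).S} {q : Prop} {x : Gl C} (hx : x ∈ XX Z q) (h : (gp C x).2) :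
    PP Z ∨ ((gp C x).1 ∧ q) := by
  rcases x with ⟨k, x⟩ | b
  · exact Or.inl ⟨k, x, hx, h⟩
  · exact hx h

theorem XX_closed {Z : ∀ k, Set (C k).S} {q : Prop} (hZ : ∀ k, SupClosed (Z k)) :
    SupClosed (XX Z q) := by
  intro x hx y hy
  rw [sup_def]
  rcases gsup_cases C x y with ⟨k, x', y', rfl, rfl⟩ | h
  · rw [gsup_same]
    exact hZ k hx hy
  · rw [h]
    rintro (h1 | h1)
    · rcases XX_gp hx h1 with h2 | ⟨h2, h3⟩
      · exact Or.inl h2
      · exact Or.inr ⟨Or.inl h2, h3⟩
    · rcases XX_gp hy h1 with h2 | ⟨h2, h3⟩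
      · exact Or.inl h2
      · exact Or.inr ⟨Or.inr h2, h3⟩

/-- Five special cells and the disjointness of `J` and `M`. -/
structure Gluable (C : κ → Cell) : Type where
  disj : ∀ (k : κ) (x : (C k).S), x ∈ (C k).J → x ∈ (C k).M → False
  e0 : κ
  e1 : κ
  e2 : κ
  e3 : κ
  e4 : κ
  a0 : (C e0).S
  a1 : (C e1).S
  a2 : (C e2).S
  a3 : (C e3).S
  a4 : (C e4).S
  h01 : e0 ≠ e1
  h34 : e3 ≠ e4
  J0 : (C e0).J = ∅
  M0 : (C e0).M = ∅
  J1 : (C e1).J = ∅
  M1 : (C e1).M = ∅
  J2 : (C e2).J = Set.univ
  M2 : (C e2).M = ∅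
  J3 : (C e3).J = ∅
  M3 : (C e3).M = Set.univ
  J4 : (C e4).J = ∅
  M4 : (C e4).M = Set.univ

/-- Profiles with the right values at the special cells. -/
structure Adm (G : Gluable C) (Z : ∀ k, Set (C k).S) : Prop where
  z0 : Z G.e0 = Set.univ
  z1 : Z G.e1 = Set.univ
  z2 : Z G.e2 = Set.univ
  z3 : Z G.e3 = ∅
  z4 : Z G.e4 = ∅

variable (G : Gluable C)

theorem e0_ne {k : κ} {x : (C k).S} (h : x ∈ (C k).J ∨ x ∈ (C k).M) : k ≠ G.e0 := by
  rintro rfl
  rcases h with h | h
  · rw [G.J0] at h; exact h
  · rw [G.M0] at h; exact h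

theorem e3_ne {k : κ} {x : (C k).S} (h : x ∈ (C k).J) : k ≠ G.e3 := by
  rintro rfl
  rw [G.J3] at h; exact h

theorem cl_FF {A : Set (Gl C)} (h0 : (Sum.inl ⟨G.e0, G.a0⟩ : Gl C) ∈ supClosure A)
    (h1 : (Sum.inl ⟨G.e1, G.a1⟩ : Gl C) ∈ supClosure A) :
    (Sum.inr (False, False) : Gl C) ∈ supClosure A := by
  refine mem_inr h0 h1 ?_ _ ?_
  · intro k x' y' hx hy
    injection hx with hx
    injection hx with hx _
    injection hy with hy
    injection hy with hy _
    exact G.h01 (hx.trans hy.symm)
  · apply Prod.ext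
    · show (G.a0 ∈ (C G.e0).J ∨ G.a1 ∈ (C G.e1).J) = False
      rw [G.J0, G.J1]
      simp
    · show (G.a0 ∈ (C G.e0).M ∨ G.a1 ∈ (C G.e1).M) = False
      rw [G.M0, G.M1]
      simp

theorem cl_TF {A : Set (Gl C)} (h0 : (Sum.inl ⟨G.e0, G.a0⟩ : Gl C) ∈ supClosure A)
    (h2 : (Sum.inl ⟨G.e2, G.a2⟩ : Gl C) ∈ supClosure A) :
    (Sum.inr (True, False) : Gl C) ∈ supClosure A := by
  refine mem_inr h0 h2 ?_ _ ?_
  · intro k x' y' hx hy
    injection hx with hx
    injection hx with hx _
    injection hy with hy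
    injection hy with hy _
    have h := e0_ne G (k := G.e2) (x := G.a2) (Or.inl (by rw [G.J2]; trivial))
    exact h (hy.trans hx.symm)
  · apply Prod.ext
    · show (G.a0 ∈ (C G.e0).J ∨ G.a2 ∈ (C G.e2).J) = True
      rw [G.J0, G.J2]
      simp
    · show (G.a0 ∈ (C G.e0).M ∨ G.a2 ∈ (C G.e2).M) = False
      rw [G.M0, G.M2]
      simp

theorem cl_FT {A : Set (Gl C)} (h0 : (Sum.inl ⟨G.e0, G.a0⟩ : Gl C) ∈ supClosure A)
    {k : κ} {x : (C k).S} (hx : x ∈ (C k).M)
    (h1 : (Sum.inl ⟨k, x⟩ : Gl C) ∈ supClosure A) :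
    (Sum.inr (False, True) : Gl C) ∈ supClosure A := by
  refine mem_inr h0 h1 ?_ _ ?_
  · intro l x' y' hx' hy'
    injection hx' with hx'
    injection hx' with hx' _
    injection hy' with hy'
    injection hy' with hy' _
    exact e0_ne G (Or.inr hx) (hy'.trans hx'.symm)
  · apply Prod.ext
    · show (G.a0 ∈ (C G.e0).J ∨ x ∈ (C k).J) = False
      rw [G.J0]
      have h3 : x ∉ (C k).J := fun h => G.disj k x h hx
      simp [h3]
    · show (G.a0 ∈ (C G.e0).M ∨ x ∈ (C k).M) = True
      simp [hx]

theorem cl_TT {A : Set (Gl C)} (h0 : (Sum.inr (True, False) : Gl C) ∈ supClosure A)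
    (h1 : (Sum.inr (False, True) : Gl C) ∈ supClosure A) :
    (Sum.inr (True, True) : Gl C) ∈ supClosure A := by
  refine mem_inr h0 h1 ?_ _ ?_
  · intro l x' y' hx' hy'
    cases hx'
  · apply Prod.ext
    · show (True ∨ False) = True
      simp
    · show (False ∨ True) = True
      simp

/-- The elements of `Prop × Prop`. -/
theorem pp_cases (b : Prop × Prop) :
    b = (False, False) ∨ b = (True, False) ∨ b = (False, True) ∨ b = (True, True) := by
  obtain ⟨p, q⟩ := b
  by_cases hp : p <;> by_cases hq : q <;> simp [hp, hq]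

theorem cl_union {Z W : ∀ k, Set (C k).S} {q r : Prop} (hZ : Adm G Z) :
    supClosure (XX Z q ∪ XX W r) =
      XX (fun k => supClosure (Z k ∪ W k))
        (q ∨ r ∨ PP (C := C) (fun k => supClosure (Z k ∪ W k))) := by
  apply Set.Subset.antisymm
  · apply supClosure_min
    · apply Set.union_subset
      · exact XX_mono (fun k => Set.subset_union_left.trans subset_supClosure) (fun h => Or.inl h)
      · exact XX_mono (fun k => Set.subset_union_right.trans subset_supClosure)
          (fun h => Or.inr (Or.inl h))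
    · exact XX_closed (fun k => supClosed_supClosure)
  · have hin : ∀ (k : κ) (x : (C k).S), x ∈ supClosure (Z k ∪ W k) →
        (Sum.inl ⟨k, x⟩ : Gl C) ∈ supClosure (XX Z q ∪ XX W r) := by
      intro k x hx
      apply cl_inl
      exact supClosure_mono (by
        rintro y (hy | hy)
        · exact Or.inl hy
        · exact Or.inr hy) hx
    have h0 : (Sum.inl ⟨G.e0, G.a0⟩ : Gl C) ∈ supClosure (XX Z q ∪ XX W r) :=
      hin _ _ (subset_supClosure (Or.inl (by rw [hZ.z0]; trivial)))
    have h1 : (Sum.inl ⟨G.e1, G.a1⟩ : Gl C) ∈ supClosure (XX Z q ∪ XX W r) :=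
      hin _ _ (subset_supClosure (Or.inl (by rw [hZ.z1]; trivial)))
    have h2 : (Sum.inl ⟨G.e2, G.a2⟩ : Gl C) ∈ supClosure (XX Z q ∪ XX W r) :=
      hin _ _ (subset_supClosure (Or.inl (by rw [hZ.z2]; trivial)))
    rintro (⟨k, x⟩ | b) hx
    · exact hin k x hx
    · rcases pp_cases b with rfl | rfl | rfl | rfl
      · exact cl_FF G h0 h1
      · exact cl_TF G h0 h2
      · rcases hx trivial with ⟨k, x, hx, hm⟩ | ⟨h, _⟩
        · exact cl_FT G h0 hm (hin k x hx)
        · exact h.elim
      · have hP : PP (C := C) (fun k => supClosure (Z k ∪ W k)) →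
            (Sum.inr (True, True) : Gl C) ∈ supClosure (XX Z q ∪ XX W r) := by
          rintro ⟨k, x, hx, hm⟩
          exact cl_TT (cl_TF G h0 h2) (cl_FT G h0 hm (hin k x hx))
        rcases hx trivial with h | ⟨_, h | h | h⟩
        · exact hP h
        · exact subset_supClosure (Or.inl (fun _ => Or.inr ⟨trivial, h⟩))
        · exact subset_supClosure (Or.inr (fun _ => Or.inr ⟨trivial, h⟩))
        · exact hP h

theorem cl_inter {Z W : ∀ k, Set (C k).S} {q r : Prop} (hZ : Adm G Z) (hW : Adm G W)
    (hZc : ∀ k, SupClosed (Z k)) (hWc : ∀ k, SupClosed (W k))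
    (hq : PP Z → q) (hr : PP W → r) :
    supClosure (inter supClosure (XX Z q ∩ XX W r)) =
      XX (fun k => supClosure (inter supClosure (Z k ∩ W k)))
        (PP (C := C) (fun k => supClosure (inter supClosure (Z k ∩ W k))) ∨
          (q ∧ r ∧ JJ (C := C) (fun k => supClosure (inter supClosure (Z k ∩ W k))))) := by
  have hsub : ∀ k, supClosure (inter supClosure (Z k ∩ W k)) ⊆ Z k ∩ W k := by
    intro k
    apply supClosure_min (inter_sub _ _)
    exact (hZc k).inter (hWc k)
  apply Set.Subset.antisymm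
  · apply supClosure_min
    · rintro (⟨k, x⟩ | b) hx
      · exact subset_supClosure (int_inl.mp hx)
      · by_contra hn
        have h3 : (Sum.inl ⟨G.e3, G.a3⟩ : Gl C) ∈ supClosure (XX Z q ∩ XX W r)ᶜ := by
          have h6 : (Sum.inl ⟨G.e3, G.a3⟩ : Gl C) ∈ (XX Z q ∩ XX W r)ᶜ := by
            intro h
            have h5 : G.a3 ∈ Z G.e3 := h.1
            rw [hZ.z3] at h5
            exact h5
          exact sub_cl h6
        have h4 : (Sum.inl ⟨G.e4, G.a4⟩ : Gl C) ∈ supClosure (XX Z q ∩ XX W r)ᶜ := by
          have h6 : (Sum.inl ⟨G.e4, G.a4⟩ : Gl C) ∈ (XX Z q ∩ XX W r)ᶜ := by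
            intro h
            have h5 : G.a4 ∈ Z G.e4 := h.1
            rw [hZ.z4] at h5
            exact h5
          exact sub_cl h6
        apply hx
        rcases pp_cases b with rfl | rfl | rfl | rfl
        · exact (hn (fun h => h.elim)).elim
        · exact (hn (fun h => h.elim)).elim
        · refine mem_inr h3 h4 ?_ _ ?_
          · intro k x' y' hx hy
            injection hx with hx
            injection hx with hx _
            injection hy with hy
            injection hy with hy _
            exact G.h34 (hx.trans hy.symm)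
          · apply Prod.ext
            · show (G.a3 ∈ (C G.e3).J ∨ G.a4 ∈ (C G.e4).J) = False
              rw [G.J3, G.J4]
              simp
            · show (G.a3 ∈ (C G.e3).M ∨ G.a4 ∈ (C G.e4).M) = True
              rw [G.M3, G.M4]
              simp
        · by_cases hqr : q ∧ r
          · have hJ : ¬ JJ (C := C) (fun k => supClosure (inter supClosure (Z k ∩ W k))) :=
              fun h => hn (fun _ => Or.inr ⟨trivial, Or.inr ⟨hqr.1, hqr.2, h⟩⟩)
            unfold JJ at hJ
            push Not at hJ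
            obtain ⟨k, hk⟩ := hJ
            rw [Set.not_subset] at hk
            obtain ⟨y, hy, hy2⟩ := hk
            have hy3 : (Sum.inl ⟨k, y⟩ : Gl C) ∈ supClosure (XX Z q ∩ XX W r)ᶜ := by
              by_contra h
              exact hy2 (subset_supClosure (int_inl.mp h))
            refine mem_inr hy3 h3 ?_ _ ?_
            · intro l x' y' hx hy'
              injection hx with hx
              injection hx with hx _
              injection hy' with hy'
              injection hy' with hy' _
              exact e3_ne G hy (hx.trans hy'.symm)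
            · apply Prod.ext
              · show (y ∈ (C k).J ∨ G.a3 ∈ (C G.e3).J) = True
                simp [hy]
              · show (y ∈ (C k).M ∨ G.a3 ∈ (C G.e3).M) = True
                rw [G.M3]
                simp
          · apply subset_supClosure
            rintro ⟨h1, h2⟩
            apply hqr
            constructor
            · rcases h1 trivial with h | h
              · exact hq h
              · exact h.2
            · rcases h2 trivial with h | h
              · exact hr h
              · exact h.2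
    · exact XX_closed (fun k => supClosed_supClosure)
  · have hin : ∀ (k : κ) (x : (C k).S), x ∈ supClosure (inter supClosure (Z k ∩ W k)) →
        (Sum.inl ⟨k, x⟩ : Gl C) ∈ supClosure (inter supClosure (XX Z q ∩ XX W r)) := by
      intro k x hx
      apply cl_inl
      exact supClosure_mono (by
        intro y hy
        exact int_inl.mpr hy) hx
    have hu : ∀ k, Z k = Set.univ → W k = Set.univ → ∀ x : (C k).S,
        x ∈ supClosure (inter supClosure (Z k ∩ W k)) := by
      intro k h1 h2 x
      apply subset_supClosure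
      rw [h1, h2]
      simp [inter]
    have h0 := hin _ _ (hu G.e0 hZ.z0 hW.z0 G.a0)
    have h1 := hin _ _ (hu G.e1 hZ.z1 hW.z1 G.a1)
    have h2 := hin _ _ (hu G.e2 hZ.z2 hW.z2 G.a2)
    rintro (⟨k, x⟩ | b) hx
    · exact hin k x hx
    · rcases pp_cases b with rfl | rfl | rfl | rfl
      · exact cl_FF G h0 h1
      · exact cl_TF G h0 h2
      · rcases hx trivial with ⟨k, x, hx, hm⟩ | ⟨h, _⟩
        · exact cl_FT G h0 hm (hin k x hx)
        · exact h.elim
      · have hP : PP (C := C) (fun k => supClosure (inter supClosure (Z k ∩ W k))) →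
            (Sum.inr (True, True) : Gl C) ∈
              supClosure (inter supClosure (XX Z q ∩ XX W r)) := by
          rintro ⟨k, x, hx, hm⟩
          exact cl_TT (cl_TF G h0 h2) (cl_FT G h0 hm (hin k x hx))
        rcases hx trivial with h | ⟨_, h | ⟨hq', hr', hJ⟩⟩
        · exact hP h
        · exact hP h
        · apply subset_supClosure
          intro hcl
          have h5 : supClosure (XX Z q ∩ XX W r)ᶜ ⊆ {x : Gl C | ¬ (gp C x).1} := by
            apply supClosure_min
            · rintro x hx h6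
              apply hx
              rcases x with ⟨k, x⟩ | b
              · exact ⟨(hsub k (hJ k h6)).1, (hsub k (hJ k h6)).2⟩
              · exact ⟨fun _ => Or.inr ⟨h6, hq'⟩, fun _ => Or.inr ⟨h6, hr'⟩⟩
            · intro x hx y hy h6
              rw [sup_def, gp_sup] at h6
              rcases h6 with h6 | h6
              · exact hx h6
              · exact hy h6
          exact h5 hcl trivial

end Closure

section NewCell

variable {κ : Type} (C : κ → Cell)

/-- The values of a term in all cells. -/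
abbrev vals (t : LTerm) : ∀ k, Set (C k).S := fun k => (C k).val t

theorem vals_closed (t : LTerm) (k : κ) : SupClosed (vals C t k) := ev_closed (C k).hv t

theorem ev_univ {S : Type} [SemilatticeSup S] {v : ℕ → Set S} (h : ∀ n, v n = Set.univ)
    (t : LTerm) : ev v t = Set.univ := by
  induction t with
  | var n => exact h n
  | join a b iha ihb => simp [ev, iha, ihb]
  | meet a b iha ihb => simp [ev, iha, ihb, inter]

theorem ev_empty {S : Type} [SemilatticeSup S] {v : ℕ → Set S} (h : ∀ n, v n = ∅)
    (t : LTerm) : ev v t = ∅ := by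
  induction t with
  | var n => exact h n
  | join a b iha ihb => simp [ev, iha, ihb]
  | meet a b iha ihb => simp [ev, iha, ihb, inter]

theorem adm_val (G : Gluable C) (h : ∀ n, Adm G (vals C (.var n))) (t : LTerm) :
    Adm G (vals C t) where
  z0 := ev_univ (fun n => (h n).z0) t
  z1 := ev_univ (fun n => (h n).z1) t
  z2 := ev_univ (fun n => (h n).z2) t
  z3 := ev_empty (fun n => (h n).z3) t
  z4 := ev_empty (fun n => (h n).z4) t

/-- Membership of the top element in the value of a term. -/
def QQ (bit : ℕ → Prop) : LTerm → Prop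
  | .var n => PP (vals C (.var n)) ∨ bit n
  | .join a b => QQ bit a ∨ QQ bit b ∨ PP (vals C (.join a b))
  | .meet a b => PP (vals C (.meet a b)) ∨ (QQ bit a ∧ QQ bit b ∧ JJ (vals C (.meet a b)))

theorem PP_QQ (bit : ℕ → Prop) (t : LTerm) (h : PP (vals C t)) : QQ C bit t := by
  cases t with
  | var n => exact Or.inl h
  | join a b => exact Or.inr (Or.inr h)
  | meet a b => exact Or.inl h

theorem sub_join (a b : LTerm) (k : κ) :
    vals C a k ⊆ vals C (.join a b) k ∧ vals C b k ⊆ vals C (.join a b) k :=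
  ⟨Set.subset_union_left.trans subset_supClosure, Set.subset_union_right.trans subset_supClosure⟩

theorem QQ_PP (bit : ℕ → Prop) (hbit : ∀ n, bit n → JJ (vals C (.var n))) (t : LTerm)
    (h : QQ C bit t) : PP (vals C t) ∨ JJ (vals C t) := by
  induction t with
  | var n =>
    rcases h with h | h
    · exact Or.inl h
    · exact Or.inr (hbit n h)
  | join a b iha ihb =>
    rcases h with h | h | h
    · rcases iha h with h1 | h1
      · exact Or.inl (PP_mono (fun k => (sub_join C a b k).1) h1)
      · exact Or.inr (fun k => (h1 k).trans (sub_join C a b k).1)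
    · rcases ihb h with h1 | h1
      · exact Or.inl (PP_mono (fun k => (sub_join C a b k).2) h1)
      · exact Or.inr (fun k => (h1 k).trans (sub_join C a b k).2)
    · exact Or.inl h
  | meet a b iha ihb =>
    rcases h with h | ⟨_, _, h⟩
    · exact Or.inl h
    · exact Or.inr h

theorem new_hv (G : Gluable C) (hadm : ∀ n, Adm G (vals C (.var n))) (bit : ℕ → Prop)
    (hbit : ∀ n, bit n → JJ (vals C (.var n))) (n : ℕ) :
    XX (vals C (.var n)) (QQ C bit (.var n)) =
      supClosure (inter supClosure (XX (vals C (.var n)) (QQ C bit (.var n)))) := by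
  have h := cl_inter G (hadm n) (hadm n) (vals_closed C (.var n)) (vals_closed C (.var n))
    (PP_QQ C bit (.var n)) (PP_QQ C bit (.var n))
  rw [Set.inter_self] at h
  rw [h]
  have h1 : (fun k => supClosure (inter supClosure (vals C (.var n) k ∩ vals C (.var n) k))) =
      vals C (.var n) := by
    funext k
    rw [Set.inter_self]
    exact ((C k).hv n).symm
  rw [h1]
  congr 1
  apply propext
  constructor
  · intro hq
    rcases QQ_PP C bit hbit (.var n) hq with h2 | h2
    · exact Or.inl h2
    · exact Or.inr ⟨hq, hq, h2⟩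
  · rintro (h2 | h2)
    · exact PP_QQ C bit (.var n) h2
    · exact h2.1

/-- The new cell. -/
noncomputable def newCell [Finite κ] (G : Gluable C) (hadm : ∀ n, Adm G (vals C (.var n)))
    (bit : ℕ → Prop) (hbit : ∀ n, bit n → JJ (vals C (.var n))) : Cell where
  S := Gl C
  sl := inferInstance
  fin := inferInstance
  J := {x | (gp C x).1}
  M := {x | (gp C x).2}
  hJ x y := by
    show (gp C (gsup C x y)).1 ↔ _
    rw [gp_sup]
    exact Iff.rfl
  hM x y := by
    show (gp C (gsup C x y)).2 ↔ _
    rw [gp_sup]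
    exact Iff.rfl
  v n := XX (vals C (.var n)) (QQ C bit (.var n))
  hv n := new_hv C G hadm bit hbit n

theorem new_val (G : Gluable C) (hadm : ∀ n, Adm G (vals C (.var n)))
    (bit : ℕ → Prop) (t : LTerm) :
    ev (fun n => XX (vals C (.var n)) (QQ C bit (.var n))) t = XX (vals C t) (QQ C bit t) := by
  induction t with
  | var n => rfl
  | join a b iha ihb =>
    show supClosure (_ ∪ _) = _
    rw [iha, ihb, cl_union G (adm_val C G hadm a)]
    rfl
  | meet a b iha ihb =>
    show supClosure (inter supClosure (_ ∩ _)) = _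
    rw [iha, ihb, cl_inter G (adm_val C G hadm a) (adm_val C G hadm b) (vals_closed C a)
      (vals_closed C b) (PP_QQ C bit a) (PP_QQ C bit b)]
    rfl

end NewCell

section Models

variable {ι : Type} (C : ι → Cell)

/-- The order of the terms in a family of cells. -/
def Le (s t : LTerm) : Prop := ∀ k, (C k).val s ⊆ (C k).val t

/-- The order is detected by the sets `J` and by the sets `M`. -/
structure Good : Prop where
  hJ : ∀ s t : LTerm, ¬ Le C s t → ∃ k, (C k).J ⊆ (C k).val s ∧ ¬ (C k).J ⊆ (C k).val t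
  hM : ∀ s t : LTerm, ¬ Le C s t →
    ∃ k, (∃ x ∈ (C k).val s, x ∈ (C k).M) ∧ (∀ x ∈ (C k).val t, x ∉ (C k).M)

/-- Restriction of the sets `J` and `M` of a cell. -/
def restr (C : Cell) (p q : Prop) : Cell where
  S := C.S
  sl := C.sl
  fin := C.fin
  J := {x | p ∧ x ∈ C.J}
  M := {x | q ∧ x ∈ C.M}
  hJ x y := by
    have h := C.hJ x y
    simp only [Set.mem_ofPred_eq]
    tauto
  hM x y := by
    have h := C.hM x y
    simp only [Set.mem_ofPred_eq]
    tauto
  v := C.v
  hv := C.hv

/-- Cells with one point. -/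
def unitCell (j m w : Prop) : Cell where
  S := Unit
  sl := inferInstance
  fin := inferInstance
  J := {_x | j}
  M := {_x | m}
  hJ x y := by simp
  hM x y := by simp
  v _ := {_x | w}
  hv n := by
    by_cases hw : w
    · simp [hw, inter]
    · simp [hw, inter]

/-- The family of cells to be glued. -/
def fam (s t : LTerm) : ι ⊕ Fin 5 → Cell
  | .inl k => restr (C k) ((C k).J ⊆ (C k).val s) (∀ y ∈ (C k).val t, y ∉ (C k).M)
  | .inr 0 => unitCell False False True
  | .inr 1 => unitCell False False True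
  | .inr 2 => unitCell True False True
  | .inr 3 => unitCell False True False
  | .inr 4 => unitCell False True False

/-- The five special cells of the family. -/
def famG (s t : LTerm) (hle : Le C s t) : Gluable (fam C s t) where
  disj k x hj hm := by
    rcases k with k | k
    · exact hm.1 x (hle k (hj.1 hj.2)) hm.2
    · fin_cases k
      · exact hj
      · exact hj
      · exact hm
      · exact hj
      · exact hj
  e0 := .inr 0
  e1 := .inr 1
  e2 := .inr 2
  e3 := .inr 3
  e4 := .inr 4
  a0 := ()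
  a1 := ()
  a2 := ()
  a3 := ()
  a4 := ()
  h01 := by simp
  h34 := by simp
  J0 := rfl
  M0 := rfl
  J1 := rfl
  M1 := rfl
  J2 := rfl
  M2 := rfl
  J3 := rfl
  M3 := rfl
  J4 := rfl
  M4 := rfl

theorem famAdm (s t : LTerm) (hle : Le C s t) (n : ℕ) :
    Adm (famG C s t hle) (vals (fam C s t) (.var n)) where
  z0 := rfl
  z1 := rfl
  z2 := rfl
  z3 := rfl
  z4 := rfl

theorem fam_val (s t z : LTerm) (k : ι) : (fam C s t (.inl k)).val z = (C k).val z := rfl

theorem fam_PP (hC : Good C) (s t z : LTerm) (hle : Le C s t) :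
    PP (vals (fam C s t) z) ↔ ¬ Le C z t := by
  constructor
  · rintro ⟨k, x, hx, hm⟩ hzt
    rcases k with k | k
    · exact hm.1 x (hzt k hx) hm.2
    · have hA := adm_val (fam C s t) (famG C s t hle) (famAdm C s t hle) z
      fin_cases k
      · exact hm
      · exact hm
      · exact hm
      · have h := hA.z3
        have h2 : x ∈ vals (fam C s t) z (.inr 3) := hx
        rw [show vals (fam C s t) z (.inr 3) = ∅ from h] at h2
        exact h2
      · have h := hA.z4
        have h2 : x ∈ vals (fam C s t) z (.inr 4) := hx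
        rw [show vals (fam C s t) z (.inr 4) = ∅ from h] at h2
        exact h2
  · intro h
    obtain ⟨k, ⟨x, hx, hm⟩, hk⟩ := hC.hM z t h
    exact ⟨.inl k, x, hx, hk, hm⟩

theorem fam_JJ (hC : Good C) (s t z : LTerm) (hle : Le C s t) :
    JJ (vals (fam C s t) z) ↔ Le C s z := by
  constructor
  · intro h
    by_contra hn
    obtain ⟨k, h1, h2⟩ := hC.hJ s z hn
    exact h2 (fun x hx => h (.inl k) ⟨h1, hx⟩)
  · intro h k
    rcases k with k | k
    · rintro x ⟨h1, h2⟩
      exact h k (h1 h2)
    · have hA := adm_val (fam C s t) (famG C s t hle) (famAdm C s t hle) z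
      fin_cases k
      · exact fun x hx => hx.elim
      · exact fun x hx => hx.elim
      · intro x _
        show x ∈ vals (fam C s t) z (.inr 2)
        rw [show vals (fam C s t) z (.inr 2) = Set.univ from hA.z2]
        trivial
      · exact fun x hx => hx.elim
      · exact fun x hx => hx.elim

theorem fam_bit (s t : LTerm) (hC : Good C) (hle : Le C s t) (n : ℕ) (h : s = .var n) :
    JJ (vals (fam C s t) (.var n)) := by
  rw [fam_JJ C hC s t _ hle]
  subst h
  exact fun k x hx => hx

/-- The pair `(s, t)` is separated in a good family of cells. -/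
def Sep (s t : LTerm) : Prop :=
  ∃ (ι : Type) (_ : Finite ι) (C : ι → Cell), Good C ∧ ¬ Le C s t

/-- The new family of cells. -/
def optFam (D : Cell) : Option ι → Cell
  | none => D
  | some k => C k

theorem Le_trans {a b c : LTerm} (h1 : Le C a b) (h2 : Le C b c) : Le C a c :=
  fun k x hx => h2 k (h1 k hx)

theorem Le_join (a b : LTerm) : Le C a (.join a b) ∧ Le C b (.join a b) :=
  ⟨fun k => (sub_join C a b k).1, fun k => (sub_join C a b k).2⟩

theorem extend [Finite ι] (hC : Good C) (s t : LTerm) (hle : Le C s t)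
    (hs : (∃ n, s = .var n) ∨ ∃ a b, s = .meet a b ∧ ¬ Le C a t ∧ ¬ Le C b t)
    (ht : (∃ n, t = .var n) ∨ ∃ a b, t = .join a b ∧ ¬ Le C s a ∧ ¬ Le C s b)
    (hne : ∀ n, s = .var n → t ≠ .var n) : Sep s t := by
  classical
  set F := fam C s t with hF
  set G := famG C s t hle with hG
  set bit : ℕ → Prop := fun n => s = .var n with hbitdef
  have hbit : ∀ n, bit n → JJ (vals F (.var n)) := fun n h => fam_bit C s t hC hle n h
  have hadm := famAdm C s t hle
  set D := newCell F G hadm bit hbit with hD
  have hval : ∀ z, D.val z = XX (vals F z) (QQ F bit z) := fun z => new_val F G hadm bit z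
  have hPP : ∀ z, PP (vals F z) ↔ ¬ Le C z t := fun z => fam_PP C hC s t z hle
  have hJJ : ∀ z, JJ (vals F z) ↔ Le C s z := fun z => fam_JJ C hC s t z hle
  -- the key fact about the new cell
  have key : ∀ z w : LTerm, Le C z w → ¬ D.val z ⊆ D.val w →
      ¬ PP (vals F w) ∧ ¬ QQ F bit w ∧ QQ F bit z ∧ JJ (vals F z) := by
    intro z w hzw hn0
    have hn : ¬ (XX (vals F z) (QQ F bit z) ⊆ XX (vals F w) (QQ F bit w)) := by
      intro h
      apply hn0
      rw [hval z, hval w]
      exact h
    rw [Set.not_subset] at hn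
    obtain ⟨x, hx, hx2⟩ := hn
    have hvalsub : ∀ k, vals F z k ⊆ vals F w k := by
      intro k
      rcases k with k | k
      · exact hzw k
      · have hA := adm_val F G hadm w
        have hB := adm_val F G hadm z
        fin_cases k
        · show vals F z G.e0 ⊆ vals F w G.e0
          rw [hA.z0]
          exact Set.subset_univ _
        · show vals F z G.e1 ⊆ vals F w G.e1
          rw [hA.z1]
          exact Set.subset_univ _
        · show vals F z G.e2 ⊆ vals F w G.e2
          rw [hA.z2]
          exact Set.subset_univ _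
        · show vals F z G.e3 ⊆ vals F w G.e3
          rw [hB.z3]
          exact Set.empty_subset _
        · show vals F z G.e4 ⊆ vals F w G.e4
          rw [hB.z4]
          exact Set.empty_subset _
    rcases x with ⟨k, x⟩ | b
    · exact (hx2 (hvalsub k hx)).elim
    · have hb : b.2 := by
        by_contra hb
        exact hx2 (fun h => (hb h).elim)
      have hw : ¬ (PP (vals F w) ∨ (b.1 ∧ QQ F bit w)) := fun h => hx2 (fun _ => h)
      have hz : PP (vals F z) ∨ (b.1 ∧ QQ F bit z) := hx hb
      have hPw : ¬ PP (vals F w) := fun h => hw (Or.inl h)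
      have hPz : ¬ PP (vals F z) := fun h => hPw (PP_mono hvalsub h)
      rcases hz with hz | ⟨hb1, hz⟩
      · exact (hPz hz).elim
      · refine ⟨hPw, fun h => hw (Or.inr ⟨hb1, h⟩), hz, ?_⟩
        rcases QQ_PP F bit hbit z hz with h | h
        · exact (hPz h).elim
        · exact h
  refine ⟨Option ι, inferInstance, optFam C D, ⟨?_, ?_⟩, ?_⟩
  · intro z w hn
    by_cases hzw : Le C z w
    · have hn2 : ¬ D.val z ⊆ D.val w := by
        intro h
        apply hn
        intro k
        rcases k with _ | k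
        · exact h
        · exact hzw k
      obtain ⟨h1, h2, h3, h4⟩ := key z w hzw hn2
      refine ⟨none, ?_, ?_⟩
      · show D.J ⊆ D.val z
        rw [hval]
        rintro (⟨k, x⟩ | b) hx
        · exact h4 k hx
        · exact fun _ => Or.inr ⟨hx, h3⟩
      · intro h
        have h5 : (Sum.inr (True, True) : Gl F) ∈ D.val w := h trivial
        rw [hval] at h5
        rcases h5 trivial with h6 | h6
        · exact h1 h6
        · exact h2 h6.2
    · obtain ⟨k, h1, h2⟩ := hC.hJ z w hzw
      exact ⟨some k, h1, h2⟩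
  · intro z w hn
    by_cases hzw : Le C z w
    · have hn2 : ¬ D.val z ⊆ D.val w := by
        intro h
        apply hn
        intro k
        rcases k with _ | k
        · exact h
        · exact hzw k
      obtain ⟨h1, h2, h3, h4⟩ := key z w hzw hn2
      refine ⟨none, ⟨(Sum.inr (True, True) : Gl F), ?_, trivial⟩, ?_⟩
      · show (Sum.inr (True, True) : Gl F) ∈ D.val z
        rw [hval]
        exact fun _ => Or.inr ⟨trivial, h3⟩
      · intro x hx hx2
        have h5 : x ∈ XX (vals F w) (QQ F bit w) := by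
          rw [← hval]
          exact hx
        rcases XX_gp h5 hx2 with h6 | h6
        · exact h1 h6
        · exact h2 h6.2
    · obtain ⟨k, h1, h2⟩ := hC.hM z w hzw
      exact ⟨some k, h1, h2⟩
  · intro hle2
    have h1 : D.val s ⊆ D.val t := hle2 none
    have hPt : ¬ PP (vals F t) := by
      rw [hPP]
      exact fun h => h (fun k x hx => hx)
    have hQs : QQ F bit s := by
      rcases hs with ⟨n, hsn⟩ | ⟨a, b, hab, ha, hb⟩
      · have h4 : QQ F bit (.var n) := Or.inr hsn
        rwa [← hsn] at h4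
      · have h4 : QQ F bit (.meet a b) :=
          Or.inr ⟨PP_QQ F bit a ((hPP a).mpr ha), PP_QQ F bit b ((hPP b).mpr hb),
            (hJJ _).mpr (by rw [← hab]; exact fun k x hx => hx)⟩
        rwa [← hab] at h4
    have hQt : ¬ QQ F bit t := by
      rcases ht with ⟨n, htn⟩ | ⟨a, b, hab, ha, hb⟩
      · intro h5
        have h6 : QQ F bit (.var n) := by rwa [htn] at h5
        have h7 : ¬ PP (vals F (.var n)) := by rwa [htn] at hPt
        rcases h6 with h | h
        · exact h7 h
        · exact hne n h htn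
      · have hone : ∀ c, Le C c t → ¬ Le C s c → ¬ QQ F bit c := by
          intro c hc hsc hQ
          rcases QQ_PP F bit hbit c hQ with h | h
          · exact (hPP c).mp h hc
          · exact hsc ((hJJ c).mp h)
        intro h5
        have h6 : QQ F bit (.join a b) := by rwa [hab] at h5
        have h7 : ¬ PP (vals F (.join a b)) := by rwa [hab] at hPt
        rcases h6 with h | h | h
        · exact hone a (by rw [hab]; exact (Le_join C a b).1) ha h
        · exact hone b (by rw [hab]; exact (Le_join C a b).2) hb h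
        · exact h7 h
    have h2 : (Sum.inr (True, True) : Gl F) ∈ D.val s := by
      rw [hval]
      exact fun _ => Or.inr ⟨trivial, hQs⟩
    have h3 := h1 h2
    rw [hval] at h3
    rcases h3 trivial with h4 | h4
    · exact hPt h4
    · exact hQt h4.2

end Models

section Induction

theorem good_sum {ι₁ ι₂ : Type} {C₁ : ι₁ → Cell} {C₂ : ι₂ → Cell} (h₁ : Good C₁)
    (h₂ : Good C₂) : Good (Sum.elim C₁ C₂) where
  hJ s t h := by
    by_cases hs : Le C₁ s t
    · by_cases ht : Le C₂ s t
      · exact (h (fun k => by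
          rcases k with k | k
          · exact hs k
          · exact ht k)).elim
      · obtain ⟨k, hk⟩ := h₂.hJ s t ht
        exact ⟨.inr k, hk⟩
    · obtain ⟨k, hk⟩ := h₁.hJ s t hs
      exact ⟨.inl k, hk⟩
  hM s t h := by
    by_cases hs : Le C₁ s t
    · by_cases ht : Le C₂ s t
      · exact (h (fun k => by
          rcases k with k | k
          · exact hs k
          · exact ht k)).elim
      · obtain ⟨k, hk⟩ := h₂.hM s t ht
        exact ⟨.inr k, hk⟩
    · obtain ⟨k, hk⟩ := h₁.hM s t hs
      exact ⟨.inl k, hk⟩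

/-- Some good family of cells has the property `P`. -/
def Sep2 (P : ∀ (ι : Type), (ι → Cell) → Prop) : Prop :=
  ∃ (ι : Type) (_ : Finite ι) (C : ι → Cell), Good C ∧ P ι C

theorem sep_true : Sep2 (fun _ _ => True) :=
  ⟨Empty, inferInstance, fun k => k.elim, ⟨fun _ _ h => (h (fun k => k.elim)).elim,
    fun _ _ h => (h (fun k => k.elim)).elim⟩, trivial⟩

/-- Whitman's rules. -/
inductive W : LTerm → LTerm → Prop
  | var (n : ℕ) : W (.var n) (.var n)
  | joinL {a b t : LTerm} : W a t → W b t → W (.join a b) t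
  | meetR {s a b : LTerm} : W s a → W s b → W s (.meet a b)
  | joinR1 {s a b : LTerm} : W s a → W s (.join a b)
  | joinR2 {s a b : LTerm} : W s b → W s (.join a b)
  | meetL1 {a b t : LTerm} : W a t → W (.meet a b) t
  | meetL2 {a b t : LTerm} : W b t → W (.meet a b) t

theorem W_sound {s t : LTerm} (h : W s t) {L : Type u} [Lattice L] (v : ℕ → L) :
    s.eval v ≤ t.eval v := by
  induction h with
  | var n => exact le_refl _
  | joinL _ _ h1 h2 => exact sup_le h1 h2
  | meetR _ _ h1 h2 => exact le_inf h1 h2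
  | joinR1 _ h => exact le_sup_of_le_left h
  | joinR2 _ h => exact le_sup_of_le_right h
  | meetL1 _ h => exact inf_le_of_left_le h
  | meetL2 _ h => exact inf_le_of_right_le h

/-- The last step: a good family with the required failures gives a separation. -/
theorem finish {s t : LTerm} (hs : (∃ n, s = .var n) ∨ ∃ a b, s = .meet a b ∧ Sep a t ∧ Sep b t)
    (ht : (∃ n, t = .var n) ∨ ∃ a b, t = .join a b ∧ Sep s a ∧ Sep s b)
    (hne : ∀ n, s = .var n → t ≠ .var n) : Sep s t := by
  have h1 : Sep2 (fun ι C => (∃ n, s = .var n) ∨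
      ∃ a b, s = .meet a b ∧ ¬ Le C a t ∧ ¬ Le C b t) := by
    rcases hs with h | ⟨a, b, hab, ha, hb⟩
    · obtain ⟨ι, f, C, g, _⟩ := sep_true
      exact ⟨ι, f, C, g, Or.inl h⟩
    · obtain ⟨ι₁, f₁, C₁, g₁, n₁⟩ := ha
      obtain ⟨ι₂, f₂, C₂, g₂, n₂⟩ := hb
      exact ⟨ι₁ ⊕ ι₂, inferInstance, Sum.elim C₁ C₂, good_sum g₁ g₂,
        Or.inr ⟨a, b, hab, fun h => n₁ (fun k => h (.inl k)), fun h => n₂ (fun k => h (.inr k))⟩⟩
  have h2 : Sep2 (fun ι C => (∃ n, t = .var n) ∨
      ∃ a b, t = .join a b ∧ ¬ Le C s a ∧ ¬ Le C s b) := by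
    rcases ht with h | ⟨a, b, hab, ha, hb⟩
    · obtain ⟨ι, f, C, g, _⟩ := sep_true
      exact ⟨ι, f, C, g, Or.inl h⟩
    · obtain ⟨ι₁, f₁, C₁, g₁, n₁⟩ := ha
      obtain ⟨ι₂, f₂, C₂, g₂, n₂⟩ := hb
      exact ⟨ι₁ ⊕ ι₂, inferInstance, Sum.elim C₁ C₂, good_sum g₁ g₂,
        Or.inr ⟨a, b, hab, fun h => n₁ (fun k => h (.inl k)), fun h => n₂ (fun k => h (.inr k))⟩⟩
  obtain ⟨ι₁, f₁, C₁, g₁, n₁⟩ := h1
  obtain ⟨ι₂, f₂, C₂, g₂, n₂⟩ := h2
  by_cases hle : Le (Sum.elim C₁ C₂) s t
  · refine extend (Sum.elim C₁ C₂) (good_sum g₁ g₂) s t hle ?_ ?_ hne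
    · rcases n₁ with h | ⟨a, b, hab, ha, hb⟩
      · exact Or.inl h
      · exact Or.inr ⟨a, b, hab, fun h => ha (fun k => h (.inl k)),
          fun h => hb (fun k => h (.inl k))⟩
    · rcases n₂ with h | ⟨a, b, hab, ha, hb⟩
      · exact Or.inl h
      · exact Or.inr ⟨a, b, hab, fun h => ha (fun k => h (.inr k)),
          fun h => hb (fun k => h (.inr k))⟩
  · exact ⟨ι₁ ⊕ ι₂, inferInstance, Sum.elim C₁ C₂, good_sum g₁ g₂, hle⟩

theorem sep_joinL1 {a b t : LTerm} (h : Sep a t) : Sep (.join a b) t := by
  obtain ⟨ι, f, C, g, n⟩ := h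
  exact ⟨ι, f, C, g, fun h => n (Le_trans C (Le_join C a b).1 h)⟩

theorem sep_joinL2 {a b t : LTerm} (h : Sep b t) : Sep (.join a b) t := by
  obtain ⟨ι, f, C, g, n⟩ := h
  exact ⟨ι, f, C, g, fun h => n (Le_trans C (Le_join C a b).2 h)⟩

theorem Le_meet {ι : Type} (C : ι → Cell) (a b : LTerm) :
    Le C (.meet a b) a ∧ Le C (.meet a b) b := by
  constructor
  · intro k
    exact supClosure_min ((inter_sub _ _).trans Set.inter_subset_left) (ev_closed (C k).hv a)
  · intro k
    exact supClosure_min ((inter_sub _ _).trans Set.inter_subset_right) (ev_closed (C k).hv b)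

theorem sep_meetR1 {s a b : LTerm} (h : Sep s a) : Sep s (.meet a b) := by
  obtain ⟨ι, f, C, g, n⟩ := h
  exact ⟨ι, f, C, g, fun h => n (Le_trans C h (Le_meet C a b).1)⟩

theorem sep_meetR2 {s a b : LTerm} (h : Sep s b) : Sep s (.meet a b) := by
  obtain ⟨ι, f, C, g, n⟩ := h
  exact ⟨ι, f, C, g, fun h => n (Le_trans C h (Le_meet C a b).2)⟩

theorem W_complete (s : LTerm) : ∀ t : LTerm, ¬ W s t → Sep s t := by
  induction s with
  | var n =>
    intro t
    induction t with
    | var m =>
      intro h
      refine finish (Or.inl ⟨n, rfl⟩) (Or.inl ⟨m, rfl⟩) ?_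
      intro k h1 h2
      injection h1 with h1
      injection h2 with h2
      subst h1
      subst h2
      exact h (W.var _)
    | join a b iha ihb =>
      intro h
      refine finish (Or.inl ⟨n, rfl⟩)
        (Or.inr ⟨a, b, rfl, iha (fun h2 => h (W.joinR1 h2)), ihb (fun h2 => h (W.joinR2 h2))⟩) ?_
      intro k _ h2
      cases h2
    | meet a b iha ihb =>
      intro h
      by_cases h1 : W (.var n) a
      · exact sep_meetR2 (ihb (fun h2 => h (W.meetR h1 h2)))
      · exact sep_meetR1 (iha h1)
  | join c d ihc ihd =>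
    intro t h
    by_cases h1 : W c t
    · exact sep_joinL2 (ihd t (fun h2 => h (W.joinL h1 h2)))
    · exact sep_joinL1 (ihc t h1)
  | meet c d ihc ihd =>
    intro t
    induction t with
    | var m =>
      intro h
      refine finish (Or.inr ⟨c, d, rfl, ihc _ (fun h2 => h (W.meetL1 h2)),
        ihd _ (fun h2 => h (W.meetL2 h2))⟩) (Or.inl ⟨m, rfl⟩) ?_
      intro k h1 _
      cases h1
    | join a b iha ihb =>
      intro h
      refine finish (Or.inr ⟨c, d, rfl, ihc _ (fun h2 => h (W.meetL1 h2)),
        ihd _ (fun h2 => h (W.meetL2 h2))⟩)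
        (Or.inr ⟨a, b, rfl, iha (fun h2 => h (W.joinR1 h2)), ihb (fun h2 => h (W.joinR2 h2))⟩) ?_
      intro k h1 _
      cases h1
    | meet a b iha ihb =>
      intro h
      by_cases h1 : W (.meet c d) a
      · exact sep_meetR2 (ihb (fun h2 => h (W.meetR h1 h2)))
      · exact sep_meetR1 (iha h1)

end Induction

/-- **Q2 of MP_397c7d_co: no nontrivial lattice identity holds in all lattices `Reg S`.** Let
`s = t` be a lattice identity which fails in some lattice `L` (in any universe). Then there is a
finite join-semilattice `S` such that the lattice `Reg S` of the regular closed subsets of `S`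
fails `s = t`. -/
theorem result (s t : LTerm)
    (h : ∃ (L : Type u) (_ : Lattice L) (v : ℕ → L), s.eval v ≠ t.eval v) :
    ∃ (S : Type) (_ : SemilatticeSup S) (_ : Finite S) (v : ℕ → RegS S), s.eval v ≠ t.eval v := by
  obtain ⟨L, hL, v, hv⟩ := h
  have hfin : ∀ a b : LTerm, Sep a b →
      ∃ (S : Type) (_ : SemilatticeSup S) (_ : Finite S) (v : ℕ → RegS S),
        a.eval v ≠ b.eval v ∧ b.eval v ≠ a.eval v := by
    intro a b hab
    obtain ⟨ι, f, C, g, n⟩ := hab
    unfold Le at n
    push Not at n
    obtain ⟨k, hk⟩ := n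
    let w : ℕ → RegS (C k).S := fun n => ⟨(C k).v n, (C k).hv n⟩
    have hne : a.eval w ≠ b.eval w := by
      intro h
      apply hk
      have h1 := ev_eval w a
      have h2 := ev_eval w b
      rw [h] at h1
      show ev (C k).v a ⊆ ev (C k).v b
      have h3 : ev (C k).v a = ev (C k).v b := h1.symm.trans h2
      rw [h3]
    exact ⟨(C k).S, (C k).sl, (C k).fin, w, hne, hne.symm⟩
  by_cases h1 : W s t
  · by_cases h2 : W t s
    · exact (hv (le_antisymm (W_sound h1 v) (W_sound h2 v))).elim
    · obtain ⟨S, i, j, w, _, hw⟩ := hfin t s (W_complete t s h2)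
      exact ⟨S, i, j, w, hw⟩
  · obtain ⟨S, i, j, w, hw, _⟩ := hfin s t (W_complete s t h1)
    exact ⟨S, i, j, w, hw⟩

end Pool.Agent.Results.MP_397c7d_co.RegSemilatticesNoIdentity
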